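import Mathlib
import Pool.Agent.TH130.PE.Loc

set_option linter.unusedSectionVars false

namespace TH130PE
open MvPolynomial H350MG

noncomputable section

variable {𝕜 : Type} [Field 𝕜] [CharZero 𝕜] {σ : Type*} [Fintype σ] [DecidableEq σ]

/-- the constraints of the blocks in `S` -/
def bL {r : ℕ} (e : Fin r → ℕ) (v : Fin r → σ → 𝕜) (S : Finset (Fin r)) :
    List ((σ → 𝕜) × ℕ) :=
  S.toList.map fun l => (v l, e l)

/-- all coordinate constraints -/
def cL (𝕜 : Type) [Field 𝕜] (σ : Type*) [Fintype σ] [DecidableEq σ] : List ((σ → 𝕜) × ℕ) :=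
  coordList 𝕜 (Finset.univ : Finset σ).toList

lemma mem_bL {r : ℕ} {e : Fin r → ℕ} {v : Fin r → σ → 𝕜} {S : Finset (Fin r)}
    {c : (σ → 𝕜) × ℕ} : c ∈ bL e v S ↔ ∃ l ∈ S, c = (v l, e l) := by
  unfold bL
  rw [List.mem_map]
  constructor
  · rintro ⟨l, hl, rfl⟩; exact ⟨l, by simpa using hl, rfl⟩
  · rintro ⟨l, hl, rfl⟩; exact ⟨l, by simpa using hl, rfl⟩

lemma bL_pos {r : ℕ} {e : Fin r → ℕ} (he : ∀ i, 0 < e i) {v : Fin r → σ → 𝕜}
    {S : Finset (Fin r)} : ∀ c ∈ bL e v S, 0 < c.2 := by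
  intro c hc
  obtain ⟨l, _, rfl⟩ := mem_bL.1 hc
  exact he l

lemma cL_pos : ∀ c ∈ cL 𝕜 σ, 0 < c.2 := by
  intro c hc
  obtain ⟨k, _, rfl⟩ := List.mem_map.1 hc
  exact Nat.zero_lt_two

lemma bL_congr {r : ℕ} {e : Fin r → ℕ} {v v' : Fin r → σ → 𝕜} {S : Finset (Fin r)}
    (h : ∀ l ∈ S, v l = v' l) : bL e v S = bL e v' S := by
  unfold bL
  refine List.map_congr_left fun l hl => ?_
  rw [h l (by simpa using hl)]

lemma bL_perm {r : ℕ} (e : Fin r → ℕ) (v : Fin r → σ → 𝕜) {S S' : Finset (Fin r)} {j : Fin r}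
    (hS' : S' ⊆ S) (hj : j ∈ S) (hj' : j ∉ S') :
    (bL e v S).Perm (bL e v (S \ insert j S') ++ (v j, e j) :: bL e v S') := by
  have h1 : S.toList.Perm ((S \ insert j S').toList ++ j :: S'.toList) := by
    rw [List.perm_ext_iff_of_nodup S.nodup_toList]
    · intro a
      simp only [Finset.mem_toList, List.mem_append, List.mem_cons, Finset.mem_sdiff,
        Finset.mem_insert]
      constructor
      · intro ha
        by_cases h1 : a = j
        · exact Or.inr (Or.inl h1)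
        · by_cases h2 : a ∈ S'
          · exact Or.inr (Or.inr h2)
          · exact Or.inl ⟨ha, by tauto⟩
      · rintro (⟨h, _⟩ | rfl | h)
        · exact h
        · exact hj
        · exact hS' h
    · rw [List.nodup_append]
      refine ⟨Finset.nodup_toList _, ?_, ?_⟩
      · rw [List.nodup_cons]
        exact ⟨by simpa using hj', Finset.nodup_toList _⟩
      · intro a ha b hb
        simp only [Finset.mem_toList, Finset.mem_sdiff, Finset.mem_insert, List.mem_cons] at ha hb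
        rintro rfl
        exact ha.2 hb
  have h2 := h1.map fun l => (v l, e l)
  rw [List.map_append, List.map_cons] at h2
  exact h2

/-- surjectivity from the equality of dimensions -/
lemma surj_of_EQ {d : ℕ} {c : (σ → 𝕜) × ℕ} {l : List ((σ → 𝕜) × ℕ)} (h1 : EQ d (c :: l))
    (h2 : EQ d l) {i : ℕ} (hi : i + c.2 ≤ d) {H : MvPolynomial σ 𝕜} (hH : H ∈ K l i) :
    ∃ F ∈ K l (i + c.2), (D c.1 ^ c.2) F = H := by
  have h3 := rank_nullity c l (i + c.2)
  have h4 := h1 (i + c.2) hi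
  have h5 := h2 (i + c.2) hi
  have h6 := h2 i (by omega)
  have h7 : c.2 ≤ i + c.2 := by omega
  have h8 : i + c.2 - c.2 = i := by omega
  simp only [List.map_cons, E, h7, if_true, h8] at h4
  have h9 : Module.finrank 𝕜 (imK c l (i + c.2)) = Module.finrank 𝕜 (K l i) := by
    have h10 : (Module.finrank 𝕜 (K l (i + c.2)) : ℤ) =
      Module.finrank 𝕜 (K (c :: l) (i + c.2)) + Module.finrank 𝕜 (imK c l (i + c.2)) := by
      exact_mod_cast h3
    have : (Module.finrank 𝕜 (imK c l (i + c.2)) : ℤ) = Module.finrank 𝕜 (K l i) := by linarith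
    exact_mod_cast this
  have h10 : imK c l (i + c.2) ≤ K l i := by
    have := imK_le c l (i + c.2)
    rwa [h8] at this
  have h11 := Submodule.eq_of_le_of_finrank_eq h10 h9
  rw [← h11] at hH
  obtain ⟨F, hF, hF'⟩ := hH
  exact ⟨F, hF, hF'⟩

/-- setting the variables outside of `U` to zero -/
def prU (U : Finset σ) : MvPolynomial σ 𝕜 →ₐ[𝕜] MvPolynomial σ 𝕜 :=
  aeval fun i => if i ∈ U then X i else 0

lemma prU_D {U : Finset σ} {v : σ → 𝕜} (hv : ∀ i, i ∉ U → v i = 0) (F : MvPolynomial σ 𝕜) :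
    D v (prU U F) = prU U (D v F) := by
  induction F using MvPolynomial.induction_on with
  | C a =>
    have h1 : D v (C a : MvPolynomial σ 𝕜) = 0 := by rw [D_apply]; simp
    have h2 : prU U (C a) = (C a : MvPolynomial σ 𝕜) := by
      rw [← MvPolynomial.algebraMap_eq, AlgHom.commutes]
    rw [h2, h1, map_zero]
  | add p q hp hq => simp only [map_add, hp, hq]
  | mul_X p i hp =>
    have h2 : D v (X i) = C (v i) := by
      rw [D_apply, Finset.sum_eq_single i]
      · rw [pderiv_X_self, smul_eq_C_mul, mul_one]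
      · intro j _ hj; rw [pderiv_X_of_ne hj.symm, smul_zero]
      · simp
    have h3 : prU U (X i) = if i ∈ U then (X i : MvPolynomial σ 𝕜) else 0 := by simp [prU]
    have h4 : D v (prU U (X i)) = C (v i) := by
      rw [h3]
      split_ifs with h
      · exact h2
      · rw [map_zero, hv i h, C_0]
    have h5 : prU U (C (v i)) = (C (v i) : MvPolynomial σ 𝕜) := by
      rw [← MvPolynomial.algebraMap_eq, AlgHom.commutes]
    rw [D_mul, map_mul, D_mul, map_add, map_mul, map_mul, hp, h2, h4, h5]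

lemma prU_Dpow {U : Finset σ} {v : σ → 𝕜} (hv : ∀ i, i ∉ U → v i = 0) (e : ℕ) :
    ∀ F : MvPolynomial σ 𝕜, (D v ^ e) (prU U F) = prU U ((D v ^ e) F) := by
  induction e with
  | zero => intro F; simp
  | succ e ih =>
    intro F
    rw [pow_succ, Module.End.mul_apply, Module.End.mul_apply, prU_D hv, ih]

lemma xm_eq_prod (β : Finset σ) : xm 𝕜 β = ∏ i ∈ β, X i := by
  induction β using Finset.induction_on with
  | empty => simpa using xm_empty
  | insert a β ha ih =>
    rw [Finset.prod_insert ha, ← ih]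
    have h1 : Disjoint ({a} : Finset σ) β := by simpa using ha
    rw [Finset.insert_eq, ← xm_mul h1]
    congr 1
    unfold xm
    have : ind ({a} : Finset σ) = Finsupp.single a 1 := by
      ext i
      rw [ind_apply, Finsupp.single_apply]
      by_cases h : i = a
      · subst h; simp
      · rw [if_neg (by simpa using h), if_neg (fun h' => h h'.symm)]
    rw [this]
    rfl

lemma prU_xm (U β : Finset σ) : prU U (xm 𝕜 β) = if β ⊆ U then xm 𝕜 β else 0 := by
  rw [xm_eq_prod, map_prod]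
  have h1 : ∀ i, prU U (X i) = if i ∈ U then (X i : MvPolynomial σ 𝕜) else 0 :=
    fun i => by simp [prU]
  split_ifs with h
  · refine Finset.prod_congr rfl fun i hi => ?_
    rw [h1, if_pos (h hi)]
  · rw [Finset.not_subset] at h
    obtain ⟨i, hi, hiU⟩ := h
    refine Finset.prod_eq_zero hi ?_
    rw [h1, if_neg hiU]

lemma prU_Sp (U : Finset σ) {P : Set (Finset σ)} {F : MvPolynomial σ 𝕜} (hF : F ∈ Sp 𝕜 P) :
    prU U F ∈ Sp 𝕜 {δ | δ ⊆ U ∧ δ ∈ P} := by
  refine map_mem_of_Sp (prU U).toLinearMap _ ?_ hF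
  intro β hβ
  rw [AlgHom.toLinearMap_apply, prU_xm]
  split_ifs with h
  · exact xm_mem_Sp ⟨h, hβ⟩
  · exact Submodule.zero_mem _

lemma prU_id {U : Finset σ} {P : Set (Finset σ)} (hP : ∀ β ∈ P, β ⊆ U) {F : MvPolynomial σ 𝕜}
    (hF : F ∈ Sp 𝕜 P) : prU U F = F := by
  have h1 := map_mem_of_Sp (P := P) ((prU U).toLinearMap - LinearMap.id) ⊥ (by
    intro β hβ
    rw [Submodule.mem_bot, LinearMap.sub_apply, AlgHom.toLinearMap_apply, prU_xm,
      if_pos (hP β hβ), LinearMap.id_apply, sub_self]) hF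
  rw [Submodule.mem_bot, LinearMap.sub_apply, AlgHom.toLinearMap_apply, LinearMap.id_apply,
    sub_eq_zero] at h1
  exact h1

/-- the blocks inside `U` -/
def inU {r : ℕ} (B : Fin r → Finset σ) (U : Finset σ) : Finset (Fin r) :=
  Finset.univ.filter fun l => B l ⊆ U

lemma mem_inU {r : ℕ} {B : Fin r → Finset σ} {U : Finset σ} {l : Fin r} :
    l ∈ inU B U ↔ B l ⊆ U := by simp [inU]

theorem good_of_UB {d r : ℕ} {e : Fin r → ℕ} (he : ∀ i, 0 < e i) {B : Fin r → Finset σ}
    {v : Fin r → σ → 𝕜} (hv : ∀ l, ∀ i, i ∉ B l → v l i = 0) {U U' : Finset σ} (hUU : U ⊆ U')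
    (hU : UB d (bL e v (inU B U') ++ cL 𝕜 σ)) : Good d e B v U := by
  intro j hj i hi H hH hH0
  obtain ⟨S', hS'⟩ : ∃ S', S' = (inU B U).filter fun l => l < j := ⟨_, rfl⟩
  have h1 : S' ⊆ inU B U' := by
    rw [hS']
    intro l hl
    exact mem_inU.2 ((mem_inU.1 (Finset.mem_filter.1 hl).1).trans hUU)
  have h2 : j ∉ S' := by rw [hS']; simp
  have h3 := bL_perm e v h1 (mem_inU.2 (hj.trans hUU)) h2
  have h4 : (bL e v (inU B U') ++ cL 𝕜 σ).Perm
      (bL e v (inU B U' \ insert j S') ++ ((v j, e j) :: (bL e v S' ++ cL 𝕜 σ))) := by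
    have := h3.append_right (cL 𝕜 σ)
    rwa [List.append_assoc, List.cons_append] at this
  have h5 : UB d ((v j, e j) :: (bL e v S' ++ cL 𝕜 σ)) :=
    UB_append_right (bL_pos he) (UB_perm h4 hU)
  have hpos : ∀ c ∈ (bL e v S' ++ cL 𝕜 σ), 0 < c.2 := by
    intro c hc
    rcases List.mem_append.1 hc with h | h
    · exact bL_pos he c h
    · exact cL_pos c h
  have h6 : EQ d ((v j, e j) :: (bL e v S' ++ cL 𝕜 σ)) := by
    refine EQ_of_UB ?_ h5
    intro c hc
    rcases List.mem_cons.1 hc with rfl | h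
    · exact he j
    · exact hpos c h
  have h7 : EQ d (bL e v S' ++ cL 𝕜 σ) := EQ_of_UB hpos (UB_tail (he j) h5)
  have hH1 : H ∈ Sp 𝕜 {β : Finset σ | β.card = i} := Sp_mono (fun δ h => h.2) hH
  have h8 : H ∈ K (bL e v S' ++ cL 𝕜 σ) i := by
    obtain ⟨a1, a2⟩ := Sp_hom hH1
    refine ⟨a1, fun c hc => ?_⟩
    rcases List.mem_append.1 hc with h | h
    · obtain ⟨l, hl, rfl⟩ := mem_bL.1 h
      rw [hS', Finset.mem_filter] at hl
      exact hH0 l hl.2
    · obtain ⟨k, _, rfl⟩ := List.mem_map.1 h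
      rw [D_single_sq]
      exact a2 k
  obtain ⟨F, hF, hF2⟩ := surj_of_EQ h6 h7 (c := (v j, e j)) hi h8
  obtain ⟨b1, b2⟩ := hF
  have hF3 : F ∈ Sp 𝕜 {β : Finset σ | β.card = i + e j} := by
    refine mem_Sp_of_hom b1 fun k => ?_
    have := b2 (Pi.single k 1, 2) (by
      rw [List.mem_append]
      right
      unfold cL coordList
      rw [List.mem_map]
      exact ⟨k, by simp, rfl⟩)
    rwa [D_single_sq] at this
  have hvU : ∀ l, B l ⊆ U → ∀ i, i ∉ U → v l i = 0 := fun l hl i hi =>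
    hv l i fun h => hi (hl h)
  refine ⟨prU U F, prU_Sp U hF3, ?_, ?_⟩
  · intro l hl hlU
    rw [prU_Dpow (hvU l hlU)]
    have := b2 (v l, e l) (by
      rw [List.mem_append]
      left
      rw [mem_bL]
      refine ⟨l, ?_, rfl⟩
      rw [hS', Finset.mem_filter]
      exact ⟨mem_inU.2 hlU, hl⟩)
    rw [this, map_zero]
  · rw [prU_Dpow (hvU j hj)]
    have h9 : (D (v j) ^ e j) F = H := hF2
    rw [h9]
    exact prU_id (fun β h => h.1) hH

/-! ### semicontinuity with masks -/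

/-- vectors supported on the blocks -/
def mask {r : ℕ} (B : Fin r → Finset σ) (P : Fin r × σ → 𝕜) : Fin r → σ → 𝕜 :=
  fun l i => if i ∈ B l then P (l, i) else 0

lemma mask_supp {r : ℕ} (B : Fin r → Finset σ) (P : Fin r × σ → 𝕜) :
    ∀ l, ∀ i, i ∉ B l → mask B P l i = 0 := by
  intro l i hi
  simp [mask, hi]

lemma isPoly_mask {r : ℕ} (B : Fin r → Finset σ) (k : Fin r) (e : ℕ) :
    ∀ (F : MvPolynomial σ 𝕜) (ψ : MvPolynomial σ 𝕜 →ₗ[𝕜] 𝕜),
    H350MG.IsPoly (fun P : Fin r × σ → 𝕜 => ψ ((D (mask B P k) ^ e) F)) := by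
  induction e with
  | zero => intro F ψ; simpa using H350MG.IsPoly.const _
  | succ e ih =>
    intro F ψ
    have h1 : (fun P : Fin r × σ → 𝕜 => ψ ((D (mask B P k) ^ (e + 1)) F))
        = fun P => ∑ i : σ, (if i ∈ B k then P (k, i) else 0) *
          ψ ((D (mask B P k) ^ e) (pderiv i F)) := by
      funext P
      rw [pow_succ, Module.End.mul_apply, D_apply, map_sum, map_sum]
      refine Finset.sum_congr rfl fun i _ => ?_
      rw [map_smul, map_smul, smul_eq_mul]
      rfl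
    rw [h1]
    refine H350MG.IsPoly.sum _ fun i _ => H350MG.IsPoly.mul ?_ (ih _ ψ)
    by_cases h : i ∈ B k
    · simpa only [if_pos h] using H350MG.IsPoly.coord (k, i)
    · simpa only [if_neg h] using H350MG.IsPoly.const 0

theorem generic_mask {r : ℕ} (B : Fin r → Finset σ) (S : Finset (Fin r))
    (l0 : List ((σ → 𝕜) × ℕ)) (e : Fin r → ℕ) (j : ℕ) (P0 : Fin r × σ → 𝕜) :
    ∃ Φ : MvPolynomial (Fin r × σ) 𝕜, Φ ≠ 0 ∧ ∀ P, eval P Φ ≠ 0 →
      Module.finrank 𝕜 (K (bL e (mask B P) S ++ l0) j) ≤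
        Module.finrank 𝕜 (K (bL e (mask B P0) S ++ l0) j) := by
  let L : (Fin r × σ → 𝕜) → (K l0 j) →ₗ[𝕜] (S → MvPolynomial σ 𝕜) := fun P =>
    LinearMap.pi fun k => (D (mask B P k.1) ^ e k.1).domRestrict (K l0 j)
  have hL : ∀ (x : K l0 j) (ψ : (S → MvPolynomial σ 𝕜) →ₗ[𝕜] 𝕜),
      H350MG.IsPoly (fun P => ψ (L P x)) := by
    intro x ψ
    have h1 : (fun P => ψ (L P x)) = fun P : Fin r × σ → 𝕜 =>
        ∑ k : S, (ψ ∘ₗ LinearMap.single 𝕜 (fun _ => MvPolynomial σ 𝕜) k)
          ((D (mask B P k.1) ^ e k.1) x) := by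
      funext P
      conv_lhs => rw [← LinearMap.sum_single_apply (v := L P x)]
      rw [map_sum]
      rfl
    rw [h1]
    exact H350MG.IsPoly.sum _ fun k _ => isPoly_mask B k.1 (e k.1) _ _
  obtain ⟨Φ, h0, hΦ⟩ := generic_ker L hL P0
  have hle : ∀ P, K (bL e (mask B P) S ++ l0) j ≤ K l0 j := by
    intro P F hF
    exact ⟨hF.1, fun c hc => hF.2 c (List.mem_append.2 (Or.inr hc))⟩
  have hker : ∀ P, Module.finrank 𝕜 (LinearMap.ker (L P)) =
      Module.finrank 𝕜 (K (bL e (mask B P) S ++ l0) j) := by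
    intro P
    have h3 : LinearMap.ker (L P) =
        Submodule.comap (K l0 j).subtype (K (bL e (mask B P) S ++ l0) j) := by
      ext F
      rw [LinearMap.mem_ker, Submodule.mem_comap, Submodule.subtype_apply, mem_K]
      constructor
      · intro h
        refine ⟨F.2.1, ?_⟩
        intro c hc
        rcases List.mem_append.1 hc with hc | hc
        · obtain ⟨k, hk, rfl⟩ := mem_bL.1 hc
          exact congrFun h ⟨k, hk⟩
        · exact F.2.2 c hc
      · rintro ⟨_, h⟩
        funext k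
        exact h (mask B P k.1, e k.1) (List.mem_append.2 (Or.inl (mem_bL.2 ⟨k.1, k.2, rfl⟩)))
    rw [h3]
    exact LinearEquiv.finrank_eq (Submodule.comapSubtypeEquivOfLe (hle P))
  exact ⟨Φ, h0, fun P hP => by rw [← hker P, ← hker P0]; exact hΦ P hP⟩

lemma map_snd_bL {r : ℕ} (e : Fin r → ℕ) (v v' : Fin r → σ → 𝕜) (S : Finset (Fin r)) :
    (bL e v S).map Prod.snd = (bL e v' S).map Prod.snd := by
  unfold bL
  rw [List.map_map, List.map_map]
  rfl

/-- the upper bound is an open condition on the vectors supported on the blocks -/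
theorem generic_UB {r : ℕ} (B : Fin r → Finset σ) (S : Finset (Fin r))
    (e : Fin r → ℕ) (d : ℕ) (P0 : Fin r × σ → 𝕜) (h0 : UB d (bL e (mask B P0) S ++ cL 𝕜 σ)) :
    ∃ Φ : MvPolynomial (Fin r × σ) 𝕜, Φ ≠ 0 ∧ ∀ P, eval P Φ ≠ 0 →
      UB d (bL e (mask B P) S ++ cL 𝕜 σ) := by
  choose Φ h0' hΦ using fun j => generic_mask B S (cL 𝕜 σ) e j P0
  refine ⟨∏ j ∈ Finset.range (d + 1), Φ j, Finset.prod_ne_zero_iff.2 fun j _ => h0' j, ?_⟩
  intro P hP j hj
  have h1 := hΦ j P fun h => hP (by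
    rw [map_prod]
    exact Finset.prod_eq_zero (Finset.mem_range.2 (by omega)) h)
  have h2 := h0 j hj
  rw [List.map_append, map_snd_bL e (mask B P0) (mask B P), ← List.map_append] at h2
  exact (Nat.cast_le.2 h1).trans h2

/-! ### one good configuration for one closed set -/

lemma perm_enum {X : Type*} {r : ℕ} (S : Finset (Fin r)) (h : Fin r → X) :
    (List.ofFn fun i : Fin S.card => h (S.orderEmbOfFin rfl i)).Perm (S.toList.map h) := by
  rw [← Multiset.coe_eq_coe, ← Fin.univ_val_map, ← Multiset.map_coe, Finset.coe_toList]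
  conv_rhs => rw [← Finset.map_orderEmbOfFin_univ S rfl]
  rw [Finset.map_val, Multiset.map_map]
  rfl

theorem UB_of_design {d r : ℕ} {e : Fin r → ℕ} (he : ∀ i, 0 < e i)
    {B B' : Fin r → Finset σ} (S : Finset (Fin r)) (hB : ∀ l, B' l ⊆ B l)
    (hD : Design d (fun i : Fin S.card => e (S.orderEmbOfFin rfl i)) (zz d d) d
      fun i : Fin S.card => B' (S.orderEmbOfFin rfl i)) :
    UB d (bL e (mask B fun x => if x.2 ∈ B' x.1 then (1 : 𝕜) else 0) S ++ cL 𝕜 σ) := by
  have h1 := UB_of_EQ (EQ_full 𝕜 (fun i => he _) hD S.card le_rfl)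
  have h2 : ∀ l, mask B (fun x => if x.2 ∈ B' x.1 then (1 : 𝕜) else 0) l = bl 𝕜 (B' l) := by
    intro l
    funext i
    unfold mask bl
    by_cases h3 : i ∈ B' l
    · simp [h3, hB l h3]
    · simp [h3]
  have h3 : (List.range S.card).map (blc 𝕜 (fun i : Fin S.card => e (S.orderEmbOfFin rfl i))
      fun i : Fin S.card => B' (S.orderEmbOfFin rfl i)) =
      List.ofFn fun i : Fin S.card =>
        (bl 𝕜 (B' (S.orderEmbOfFin rfl i)), e (S.orderEmbOfFin rfl i)) := by
    rw [List.ofFn_eq_map, ← List.map_coe_finRange_eq_range, List.map_map]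
    refine List.map_congr_left fun k _ => ?_
    simp only [Function.comp_apply, blc, k.2, dif_pos]
  refine UB_perm ?_ h1
  unfold fullList cL bL
  refine List.Perm.append_right _ ?_
  refine ((List.reverse_perm _).map _).trans ?_
  rw [h3]
  simp only [h2]
  exact perm_enum S fun l => (bl 𝕜 (B' l), e l)

end
end TH130PE
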