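import Mathlib
import Pool.Agent.TH130.PE.Dsg

set_option linter.unusedSectionVars false

namespace TH130PE
open H350MF (Sb card_Sb)

noncomputable section

variable {F V : Type*} [Field F] [Fintype F] [DecidableEq F] [AddCommGroup V] [Module F V]
  [Fintype V] [DecidableEq V] {D : ℕ}

/-- the values of a polynomial with coefficients in `V` -/
def ev (φ : Fin D → V) (a : F) : V := ∑ j : Fin D, a ^ (j : ℕ) • φ j

lemma ev_sub (φ ψ : Fin D → V) (a : F) : ev φ a - ev ψ a = ev (fun j => φ j - ψ j) a := by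
  unfold ev
  rw [← Finset.sum_sub_distrib]
  exact Finset.sum_congr rfl fun j _ => by rw [smul_sub]

lemma ev_mem {W : Submodule F V} {φ : Fin D → V} (h : ∀ j, φ j ∈ W) (a : F) : ev φ a ∈ W :=
  Submodule.sum_mem _ fun j _ => Submodule.smul_mem _ _ (h j)

lemma coeff_mem_of_ev {W : Submodule F V} {φ : Fin D → V} {κ : Fin D}
    (hφ : ∀ j, κ < j → φ j = 0) {s : Finset F} (hs : κ.val + 1 ≤ s.card)
    (h : ∀ a ∈ s, ev φ a ∈ W) (j : Fin D) : φ j ∈ W := by
  by_contra hj
  obtain ⟨f, hf1, hf2⟩ := Submodule.exists_le_ker_of_notMem hj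
  obtain ⟨p, hp⟩ : ∃ p : Polynomial F, p = ∑ i : Fin D,
      Polynomial.C (f (φ i)) * Polynomial.X ^ (i : ℕ) := ⟨_, rfl⟩
  have hcoef : ∀ m : ℕ, p.coeff m = ∑ i : Fin D, if m = (i : ℕ) then f (φ i) else 0 := by
    intro m
    rw [hp, Polynomial.finsetSum_coeff]
    refine Finset.sum_congr rfl fun i _ => ?_
    rw [Polynomial.coeff_C_mul, Polynomial.coeff_X_pow]
    split_ifs <;> simp
  have hdeg : p.degree < s.card := by
    refine lt_of_lt_of_le ?_ (show ((κ.val + 1 : ℕ) : WithBot ℕ) ≤ s.card by exact_mod_cast hs)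
    rw [Polynomial.degree_lt_iff_coeff_zero]
    intro m hm
    rw [hcoef]
    refine Finset.sum_eq_zero fun i _ => ?_
    split_ifs with h1
    · rw [hφ i (by rw [Fin.lt_def]; omega), map_zero]
    · rfl
  have hev : ∀ a ∈ s, p.eval a = 0 := by
    intro a ha
    have h1 : f (ev φ a) = 0 := hf2 (h a ha)
    rw [← h1, hp, Polynomial.eval_finsetSum]
    unfold ev
    rw [map_sum]
    refine Finset.sum_congr rfl fun i _ => ?_
    rw [map_smul, smul_eq_mul, Polynomial.eval_mul, Polynomial.eval_C, Polynomial.eval_pow,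
      Polynomial.eval_X, mul_comm]
  have hp0 := Polynomial.eq_zero_of_degree_lt_of_eval_finset_eq_zero s hdeg hev
  apply hf1
  have h2 : p.coeff (j : ℕ) = f (φ j) := by
    rw [hcoef, Finset.sum_eq_single j]
    · rw [if_pos rfl]
    · intro i _ hi
      rw [if_neg]
      intro h
      exact hi (Fin.ext h.symm)
    · intro h; exact absurd (Finset.mem_univ _) h
  rw [← h2, hp0, Polynomial.coeff_zero]

variable {σ : Type*} [Fintype σ] [DecidableEq σ] (ι : Fin D × (F × V) ↪ σ)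

/-- the block of a polynomial of type `κ` -/
def Blk (κ : Fin D) (φ : Fin D → V) : Finset σ :=
  Finset.univ.image fun a : F => ι (κ, (a, ev φ a))

/-- the flats -/
def Flt (ψ : Fin D → Fin D → V) (W : Fin D → Submodule F V) : Finset σ := by
  classical
  exact Finset.univ.filter fun x => ∀ κ q, ι (κ, q) = x → q.2 - ev (ψ κ) q.1 ∈ W κ

lemma mem_Flt {ψ : Fin D → Fin D → V} {W : Fin D → Submodule F V} {x : σ} :
    x ∈ Flt ι ψ W ↔ ∀ κ q, ι (κ, q) = x → q.2 - ev (ψ κ) q.1 ∈ W κ := by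
  classical
  unfold Flt
  simp

lemma mem_Flt_ι {ψ : Fin D → Fin D → V} {W : Fin D → Submodule F V} {κ : Fin D} {q : F × V} :
    ι (κ, q) ∈ Flt ι ψ W ↔ q.2 - ev (ψ κ) q.1 ∈ W κ := by
  rw [mem_Flt]
  constructor
  · intro h; exact h κ q rfl
  · intro h κ' q' hq'
    have h1 := ι.injective hq'
    rw [Prod.mk.injEq] at h1
    rw [h1.1, h1.2]
    exact h

lemma mem_Blk {κ : Fin D} {φ : Fin D → V} {x : σ} :
    x ∈ Blk ι κ φ ↔ ∃ a : F, ι (κ, (a, ev φ a)) = x := by
  simp [Blk]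

lemma Blk_sub {κ : Fin D} {φ : Fin D → V} {ψ : Fin D → Fin D → V} {W : Fin D → Submodule F V}
    (h : ∀ j, φ j - ψ κ j ∈ W κ) : Blk ι κ φ ⊆ Flt ι ψ W := by
  intro x hx
  obtain ⟨a, rfl⟩ := (mem_Blk ι).1 hx
  rw [mem_Flt_ι]
  change ev φ a - ev (ψ κ) a ∈ W κ
  rw [ev_sub]
  exact ev_mem h a

lemma diff_mem {κ : Fin D} {φ : Fin D → V} {ψ : Fin D → Fin D → V}
    {W : Fin D → Submodule F V} (hφ : ∀ j, κ < j → φ j = 0) (hψ : ∀ j, κ < j → ψ κ j = 0)
    (h : κ.val + 1 ≤ (Blk ι κ φ ∩ Flt ι ψ W).card) (j : Fin D) : φ j - ψ κ j ∈ W κ := by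
  classical
  have h1 : Blk ι κ φ ∩ Flt ι ψ W ⊆
      (Finset.univ.filter fun a : F => ev φ a - ev (ψ κ) a ∈ W κ).image
        fun a => ι (κ, (a, ev φ a)) := by
    intro x hx
    rw [Finset.mem_inter] at hx
    obtain ⟨a, rfl⟩ := (mem_Blk ι).1 hx.1
    rw [mem_Flt_ι] at hx
    exact Finset.mem_image.2 ⟨a, Finset.mem_filter.2 ⟨Finset.mem_univ _, hx.2⟩, rfl⟩
  have h2 : κ.val + 1 ≤ (Finset.univ.filter fun a : F => ev φ a - ev (ψ κ) a ∈ W κ).card :=
    h.trans ((Finset.card_le_card h1).trans Finset.card_image_le)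
  refine coeff_mem_of_ev (φ := fun j => φ j - ψ κ j) (κ := κ) ?_ h2 ?_ j
  · intro j hj
    rw [hφ j hj, hψ j hj, sub_zero]
  · intro a ha
    rw [← ev_sub]
    exact (Finset.mem_filter.1 ha).2

lemma card_Blk (κ : Fin D) (φ : Fin D → V) : (Blk ι κ φ).card = Fintype.card F := by
  unfold Blk
  rw [Finset.card_image_of_injective, Finset.card_univ]
  intro a b h
  have := ι.injective h
  simp only [Prod.mk.injEq] at this
  exact this.2.1

lemma Blk_inter {κ κ' : Fin D} {φ φ' : Fin D → V} (hφ : ∀ j, κ < j → φ j = 0)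
    (hφ' : ∀ j, κ' < j → φ' j = 0) (h : κ = κ' → φ ≠ φ') :
    (Blk ι κ φ ∩ Blk ι κ' φ').card < max (κ.val + 1) (κ'.val + 1) := by
  classical
  by_cases hκ : κ = κ'
  · subst hκ
    rw [max_self]
    by_contra hcon
    push Not at hcon
    apply h rfl
    funext j
    have h1 : Blk ι κ φ' ⊆ Flt ι (fun κ' j => if κ < j then 0 else φ' j)
        (fun _ => (⊥ : Submodule F V)) := by
      refine Blk_sub ι fun j => ?_
      rw [Submodule.mem_bot]
      split_ifs with h1
      · rw [hφ' j h1, sub_zero]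
      · rw [sub_self]
    have h2 := diff_mem ι (ψ := fun κ' j => if κ < j then 0 else φ' j)
      (W := fun _ => (⊥ : Submodule F V)) hφ (fun j hj => by simp [hj])
      (hcon.trans (Finset.card_le_card (Finset.inter_subset_inter_left h1))) j
    change φ j - (if κ < j then 0 else φ' j) ∈ (⊥ : Submodule F V) at h2
    rw [Submodule.mem_bot] at h2
    split_ifs at h2 with h3
    · rw [hφ j h3, hφ' j h3]
    · exact sub_eq_zero.1 h2
  · have h1 : Blk ι κ φ ∩ Blk ι κ' φ' = ∅ := by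
      rw [Finset.eq_empty_iff_forall_notMem]
      intro x hx
      rw [Finset.mem_inter] at hx
      obtain ⟨a, ha⟩ := (mem_Blk ι).1 hx.1
      obtain ⟨b, hb⟩ := (mem_Blk ι).1 hx.2
      have h2 := ι.injective (ha.trans hb.symm)
      exact hκ (Prod.ext_iff.1 h2).1
    rw [h1, Finset.card_empty]
    exact lt_max_of_lt_left (Nat.succ_pos _)

/-- the family of the flats -/
def FL (w : ℕ) : Set (Finset σ) :=
  {U | ∃ (ψ : Fin D → Fin D → V) (W : Fin D → Submodule F V), (∀ κ j, κ < j → ψ κ j = 0) ∧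
    (∀ κ, Module.finrank F (W κ) ≤ w) ∧ U = Flt ι ψ W}

/-- exponents of a family of types -/
def ex {r : ℕ} (κ : Fin r → Fin D) : Fin r → ℕ := fun i => (κ i).val + 1

theorem cl_sub_FL {r : ℕ} {κ : Fin r → Fin D} {φ : Fin r → (Fin D → V)}
    (hφ : ∀ i j, κ i < j → φ i j = 0) {d : ℕ} (j : Fin r) (γ : Finset σ)
    (hγ : γ.card + ex κ j ≤ d) :
    ∃ U ∈ FL (F := F) (V := V) ι (d - 1),
      cl (ex κ) (fun i => Blk ι (κ i) (φ i)) (Blk ι (κ j) (φ j) ∪ γ) ⊆ U := by
  classical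
  let ψ : Fin D → Fin D → V := fun κ' => if κ' = κ j then φ j else 0
  have hψ : ∀ κ' i, κ' < i → ψ κ' i = 0 := by
    intro κ' i hi
    simp only [ψ]
    split_ifs with h
    · subst h; exact hφ j i hi
    · rfl
  let G : Fin D → Finset V := fun κ' =>
    ((Finset.univ : Finset (F × V)).filter fun q => ι (κ', q) ∈ γ).image
      fun q => q.2 - ev (ψ κ') q.1
  have hG : ∀ κ', (G κ').card ≤ d - 1 := by
    intro κ'
    have h1 : ((Finset.univ : Finset (F × V)).filter fun q => ι (κ', q) ∈ γ).card ≤ γ.card := by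
      refine Finset.card_le_card_of_injOn (fun q => ι (κ', q)) ?_ ?_
      · intro q hq
        simpa using hq
      · intro q _ q' _ h
        exact (Prod.ext_iff.1 (ι.injective h)).2
    have h2 := Finset.card_image_le
      (s := (Finset.univ : Finset (F × V)).filter fun q => ι (κ', q) ∈ γ)
      (f := fun q : F × V => q.2 - ev (ψ κ') q.1)
    have h3 : (G κ').card ≤ γ.card := h2.trans h1
    unfold ex at hγ
    omega
  refine ⟨Flt ι ψ (fun κ' => Submodule.span F (G κ' : Set V)), ⟨ψ, _, hψ, fun κ' =>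
    (finrank_span_finset_le_card (G κ')).trans (hG κ'), rfl⟩, ?_⟩
  refine cl_sub ?_ (Finset.union_subset ?_ ?_)
  · intro l
    by_cases h : (Blk ι (κ l) (φ l) ∩ Flt ι ψ fun κ' => Submodule.span F (G κ' : Set V)).card
        < ex κ l
    · exact Or.inr h
    · left
      push Not at h
      exact Blk_sub ι (diff_mem ι (hφ l) (hψ (κ l)) h)
  · refine Blk_sub ι fun i => ?_
    simp only [ψ, if_true, sub_self]
    exact Submodule.zero_mem _
  · intro x hx
    rw [mem_Flt]
    rintro κ' q rfl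
    refine Submodule.subset_span ?_
    rw [Finset.mem_coe, Finset.mem_image]
    exact ⟨q, Finset.mem_filter.2 ⟨Finset.mem_univ _, hx⟩, rfl⟩

/-- the points of a flat -/
def fpts (ψ : Fin D → Fin D → V) (W : Fin D → Submodule F V) : Finset σ :=
  Flt ι ψ W ∩ Finset.univ.map ι

lemma card_W {w : ℕ} {W : Submodule F V} [Fintype W] (hW : Module.finrank F W ≤ w) :
    Fintype.card W ≤ Fintype.card F ^ w := by
  classical
  rw [Module.card_eq_pow_finrank (K := F)]
  exact Nat.pow_le_pow_right Fintype.card_pos hW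

lemma card_fpts {w : ℕ} (ψ : Fin D → Fin D → V) {W : Fin D → Submodule F V}
    (hW : ∀ κ, Module.finrank F (W κ) ≤ w) :
    (fpts ι ψ W).card ≤ D * Fintype.card F ^ (w + 1) := by
  classical
  have h1 : fpts ι ψ W ⊆ Finset.univ.biUnion fun κ : Fin D =>
      (Finset.univ : Finset (F × W κ)).image fun q => ι (κ, (q.1, (q.2 : V) + ev (ψ κ) q.1)) := by
    intro x hx
    unfold fpts at hx
    rw [Finset.mem_inter, Finset.mem_map] at hx
    obtain ⟨hx1, ⟨κ, q⟩, _, rfl⟩ := hx
    rw [mem_Flt_ι] at hx1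
    refine Finset.mem_biUnion.2 ⟨κ, Finset.mem_univ _, Finset.mem_image.2
      ⟨(q.1, ⟨_, hx1⟩), Finset.mem_univ _, ?_⟩⟩
    simp
  refine (Finset.card_le_card h1).trans ?_
  refine (Finset.card_biUnion_le_card_mul _ _ (Fintype.card F ^ (w + 1)) ?_).trans ?_
  · intro κ _
    refine Finset.card_image_le.trans ?_
    rw [Finset.card_univ, Fintype.card_prod, pow_succ, mul_comm]
    exact Nat.mul_le_mul_right _ (card_W (hW κ))
  · rw [Finset.card_univ, Fintype.card_fin]

lemma card_inU (hDF : D ≤ Fintype.card F) {r : ℕ} {κ : Fin r → Fin D}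
    {φ : Fin r → (Fin D → V)} (hφ : ∀ i j, κ i < j → φ i j = 0)
    (hinj : ∀ i j, κ i = κ j → φ i = φ j → i = j) {w : ℕ}
    {ψ : Fin D → Fin D → V} (hψ : ∀ κ j, κ < j → ψ κ j = 0) {W : Fin D → Submodule F V}
    (hW : ∀ κ, Module.finrank F (W κ) ≤ w) :
    (inU (fun i => Blk ι (κ i) (φ i)) (Flt ι ψ W)).card ≤ D * (Fintype.card F ^ w) ^ D := by
  classical
  have h1 : inU (fun i => Blk ι (κ i) (φ i)) (Flt ι ψ W) ⊆ Finset.univ.biUnion fun κ' : Fin D =>
      (inU (fun i => Blk ι (κ i) (φ i)) (Flt ι ψ W)).filter fun i => κ i = κ' := by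
    intro i hi
    exact Finset.mem_biUnion.2 ⟨κ i, Finset.mem_univ _, Finset.mem_filter.2 ⟨hi, rfl⟩⟩
  refine (Finset.card_le_card h1).trans ?_
  refine (Finset.card_biUnion_le_card_mul _ _ ((Fintype.card F ^ w) ^ D) ?_).trans ?_
  · intro κ' _
    have h2 : ((inU (fun i => Blk ι (κ i) (φ i)) (Flt ι ψ W)).filter fun i => κ i = κ').card ≤
        (Finset.univ : Finset (Fin D → W κ')).card := by
      refine Finset.card_le_card_of_injOn (fun l => fun j =>
        if h : φ l j - ψ κ' j ∈ W κ' then (⟨_, h⟩ : W κ') else 0) (fun _ _ => Finset.mem_univ _) ?_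
      intro l hl l' hl' heq
      rw [Finset.mem_coe, Finset.mem_filter, mem_inU] at hl hl'
      obtain ⟨hl, hlκ⟩ := hl
      obtain ⟨hl', hlκ'⟩ := hl'
      refine hinj l l' (hlκ.trans hlκ'.symm) ?_
      have hdm : ∀ l, Blk ι (κ l) (φ l) ⊆ Flt ι ψ W → κ l = κ' → ∀ j, φ l j - ψ κ' j ∈ W κ' := by
        intro l hl hlκ j
        subst hlκ
        refine diff_mem ι (hφ l) (hψ (κ l)) ?_ j
        rw [Finset.inter_eq_left.2 hl, card_Blk]
        exact (κ l).2.trans_le hDF
      funext j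
      have h2 := congrFun heq j
      have h3 := hdm l hl hlκ j
      have h4 := hdm l' hl' hlκ' j
      simp only [h3, h4, dif_pos, Subtype.mk.injEq] at h2
      exact sub_left_injective h2
    refine h2.trans ?_
    rw [Finset.card_univ, Fintype.card_fun, Fintype.card_fin]
    exact Nat.pow_le_pow_left (card_W (hW κ')) _
  · rw [Finset.card_univ, Fintype.card_fin]

end
end TH130PE
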