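import Mathlib
import Pool.Agent.TH130.PE.Aff
import Pool.Agent.H350R3.MG.Fat

set_option linter.unusedSectionVars false

namespace TH130PE
open MvPolynomial H350MG
open H350MF (Sb card_Sb)

noncomputable section

section
variable (𝕜 : Type) [Field 𝕜] [CharZero 𝕜]
  {F V : Type} [Field F] [Fintype F] [DecidableEq F] [AddCommGroup V] [Module F V]
  [Fintype V] [DecidableEq V] {D : ℕ} {σ : Type} [Fintype σ] [DecidableEq σ]

/-- the sub-blocks as partial transversals -/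
def bemb {k n0 : ℕ} (ι : Fin D × (F × V) ↪ σ) (α : Fin k × Fin n0 ↪ F) (κ : Fin D)
    (φ : Fin D → V) : Fin k × Fin n0 ↪ σ :=
  ⟨fun x => ι (κ, (α x, ev φ (α x))), fun _ _ h => by
    have := ι.injective h
    simp only [Prod.mk.injEq] at this
    exact α.injective this.2.1⟩

lemma Sb_bemb {k n0 : ℕ} (ι : Fin D × (F × V) ↪ σ) (α : Fin k × Fin n0 ↪ F) (κ : Fin D)
    (φ : Fin D → V) (f : Fin k → Fin n0) : Sb (bemb ι α κ φ) f ⊆ Blk ι κ φ := by
  intro x hx
  unfold Sb at hx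
  obtain ⟨j, _, rfl⟩ := Finset.mem_image.1 hx
  exact (mem_Blk ι).2 ⟨α (j, f j), rfl⟩

/-- the design inside of one flat -/
theorem UB_flat {k n0 L b : ℕ} (hDF : D ≤ Fintype.card F) (hn0 : 0 < n0)
    (hk : zz D D + L * D + D ≤ k) (hkq : k * n0 ≤ Fintype.card F)
    (hb : ∀ e, 1 ≤ e → e ≤ D → 2 ^ k * (k + zz D D) ^ e * n0 ^ (k - e) ≤ b)
    (hnum : (D * (Fintype.card F ^ (D - 1)) ^ D) * (D * Fintype.card F ^ (D - 1 + 1)) ^ (zz D D) *
      2 ^ (2 ^ (k + zz D D)) * b ^ (L + 1) < (n0 ^ k) ^ (L + 1))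
    (ι : Fin D × (F × V) ↪ σ) {r : ℕ} {κ : Fin r → Fin D} {φ : Fin r → (Fin D → V)}
    (hφ : ∀ i j, κ i < j → φ i j = 0) (hinj : ∀ i j, κ i = κ j → φ i = φ j → i = j)
    {U : Finset σ} (hU : U ∈ FL (F := F) (V := V) ι (D - 1)) :
    ∃ P0 : Fin r × σ → 𝕜, UB D (bL (ex κ) (mask (fun i => Blk ι (κ i) (φ i)) P0)
      (inU (fun i => Blk ι (κ i) (φ i)) U) ++ cL 𝕜 σ) := by
  classical
  obtain ⟨ψ, W, hψ, hW, rfl⟩ := hU
  obtain ⟨B, hB⟩ : ∃ B : Fin r → Finset σ, B = fun i => Blk ι (κ i) (φ i) := ⟨_, rfl⟩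
  obtain ⟨S, hS⟩ : ∃ S, S = inU B (Flt ι ψ W) := ⟨_, rfl⟩
  obtain ⟨α⟩ : Nonempty (Fin k × Fin n0 ↪ F) := by
    refine Function.Embedding.nonempty_of_card_le ?_
    rw [Fintype.card_prod, Fintype.card_fin, Fintype.card_fin]
    exact hkq
  have hScard : S.card ≤ D * (Fintype.card F ^ (D - 1)) ^ D := by
    rw [hS, hB]
    exact card_inU ι hDF hφ hinj hψ hW
  have hSmem : ∀ i : Fin S.card, B (S.orderEmbOfFin rfl i) ⊆ Flt ι ψ W := by
    intro i
    have h1 : S.orderEmbOfFin rfl i ∈ S := Finset.orderEmbOfFin_mem S rfl i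
    have h2 : S.orderEmbOfFin rfl i ∈ inU B (Flt ι ψ W) := hS ▸ h1
    exact mem_inU.1 h2
  have hN : (fpts ι ψ W).card ≤ D * Fintype.card F ^ (D - 1 + 1) := card_fpts ι ψ hW
  have hnum2 : S.card * (D * Fintype.card F ^ (D - 1 + 1)) ^ (zz D D) *
      2 ^ (2 ^ (k + zz D D)) * b ^ (L + 1) < (n0 ^ k) ^ (L + 1) := by
    refine lt_of_le_of_lt ?_ hnum
    gcongr
  obtain ⟨χ, hχ⟩ := exists_subdesign
    (fun i : Fin S.card => bemb ι α (κ (S.orderEmbOfFin rfl i)) (φ (S.orderEmbOfFin rfl i)))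
    (fun i : Fin S.card => ex κ (S.orderEmbOfFin rfl i))
    (fun i : Fin S.card => B (S.orderEmbOfFin rfl i)) (d := D) (z := zz D D) (t := D) (L := L)
    (b := b) hn0 hk (fun i => (κ _).2)
    (by
      intro i j hij
      rw [hB]
      refine Blk_inter ι (hφ _) (hφ _) fun h h' => hij ?_
      exact (S.orderEmbOfFin rfl).injective (hinj _ _ h h'))
    (fun g => hb _ (Nat.succ_pos _) (κ _).2)
    (by
      intro i f
      rw [hB]
      exact Sb_bemb ι α _ _ f)
    hN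
    (by
      intro i
      unfold fpts
      refine Finset.subset_inter (hSmem i) ?_
      intro x hx
      rw [hB] at hx
      obtain ⟨a, rfl⟩ := (mem_Blk ι).1 hx
      exact Finset.mem_map_of_mem _ (Finset.mem_univ _))
    hnum2
  let χ' : Fin r → Fin k → Fin n0 :=
    Function.extend (S.orderEmbOfFin rfl) χ (fun _ _ => ⟨0, hn0⟩)
  let B' : Fin r → Finset σ := fun l => Sb (bemb ι α (κ l) (φ l)) (χ' l)
  have hB' : ∀ l, B' l ⊆ B l := by
    intro l
    rw [hB]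
    exact Sb_bemb ι α _ _ _
  have h1 : (fun i : Fin S.card => B' (S.orderEmbOfFin rfl i)) =
      fun i : Fin S.card => Sb (bemb ι α (κ (S.orderEmbOfFin rfl i))
        (φ (S.orderEmbOfFin rfl i))) (χ i) := by
    funext i
    simp only [B', χ']
    rw [(S.orderEmbOfFin rfl).injective.extend_apply]
  have h2 := UB_of_design (𝕜 := 𝕜) (d := D) (e := ex κ) (fun i => Nat.succ_pos _) S hB'
    (by rw [h1]; exact hχ)
  refine ⟨fun x => if x.2 ∈ B' x.1 then 1 else 0, ?_⟩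
  rw [hB, hS, hB] at h2
  exact h2

/-- the upper bound at one configuration -/
theorem UB_conf {k n0 L b : ℕ} (hDF : D ≤ Fintype.card F) (hn0 : 0 < n0)
    (hk : zz D D + L * D + D ≤ k) (hkq : k * n0 ≤ Fintype.card F)
    (hb : ∀ e, 1 ≤ e → e ≤ D → 2 ^ k * (k + zz D D) ^ e * n0 ^ (k - e) ≤ b)
    (hnum : (D * (Fintype.card F ^ (D - 1)) ^ D) * (D * Fintype.card F ^ (D - 1 + 1)) ^ (zz D D) *
      2 ^ (2 ^ (k + zz D D)) * b ^ (L + 1) < (n0 ^ k) ^ (L + 1))
    (ι : Fin D × (F × V) ↪ σ) {r : ℕ} {κ : Fin r → Fin D} {φ : Fin r → (Fin D → V)}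
    (hφ : ∀ i j, κ i < j → φ i j = 0) (hinj : ∀ i j, κ i = κ j → φ i = φ j → i = j) :
    ∃ P0 : Fin r × σ → 𝕜, UB D (ptList (ex κ) P0) := by
  classical
  obtain ⟨B, hB⟩ : ∃ B : Fin r → Finset σ, B = fun i => Blk ι (κ i) (φ i) := ⟨_, rfl⟩
  have he : ∀ i, 0 < ex κ i := fun i => Nat.succ_pos _
  have h1 : ∀ U : Finset σ, ∃ Φ : MvPolynomial (Fin r × σ) 𝕜, Φ ≠ 0 ∧
      (U ∈ FL (F := F) (V := V) ι (D - 1) → ∀ P, eval P Φ ≠ 0 →
        UB D (bL (ex κ) (mask B P) (inU B U) ++ cL 𝕜 σ)) := by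
    intro U
    by_cases hU : U ∈ FL (F := F) (V := V) ι (D - 1)
    · obtain ⟨P0, hP0⟩ := UB_flat 𝕜 (L := L) hDF hn0 hk hkq hb hnum ι hφ hinj hU
      obtain ⟨Φ, h2, h3⟩ := generic_UB B (inU B U) (ex κ) D P0 (by rw [hB]; exact hP0)
      exact ⟨Φ, h2, fun _ => h3⟩
    · exact ⟨1, one_ne_zero, fun h => absurd h hU⟩
  choose Φ hΦ0 hΦ using h1
  have h2 : (∏ U : Finset σ, Φ U) ≠ 0 := Finset.prod_ne_zero_iff.2 fun U _ => hΦ0 U
  obtain ⟨P, hP⟩ : ∃ P : Fin r × σ → 𝕜, eval P (∏ U : Finset σ, Φ U) ≠ 0 := by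
    by_contra hcon
    push Not at hcon
    exact h2 (MvPolynomial.funext fun w => by rw [hcon w, map_zero])
  rw [map_prod, Finset.prod_ne_zero_iff] at hP
  refine ⟨vPts (mask B P), ?_⟩
  refine UB_vpts (B := B) (mask_supp B P) ?_
  intro j γ hγ
  obtain ⟨U, hU, hsub⟩ := cl_sub_FL ι (κ := κ) hφ j γ hγ
  refine good_of_UB he (mask_supp B P) (U' := U) ?_ (hΦ U hU P (hP U (Finset.mem_univ _)))
  rw [hB]
  exact hsub

end

/-- the numerical part -/
lemma exists_num (D : ℕ) (hD : 0 < D) : ∃ q0 L k : ℕ, 0 < k ∧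
    zz D D + L * D + D ≤ k ∧ D ≤ q0 ∧ ∀ q, q0 ≤ q → 0 < q / k ∧ ∃ b,
      (∀ e, 1 ≤ e → e ≤ D → 2 ^ k * (k + zz D D) ^ e * (q / k) ^ (k - e) ≤ b) ∧
      (D * (q ^ (D - 1)) ^ D) * (D * q ^ (D - 1 + 1)) ^ (zz D D) *
      2 ^ (2 ^ (k + zz D D)) * b ^ (L + 1) < ((q / k) ^ k) ^ (L + 1) := by
  obtain ⟨z, hz⟩ : ∃ z, z = zz D D := ⟨_, rfl⟩
  obtain ⟨A, hA⟩ : ∃ A, A = (D - 1) * D + (D - 1 + 1) * z := ⟨_, rfl⟩
  obtain ⟨k, hk⟩ : ∃ k, k = z + A * D + D := ⟨_, rfl⟩
  obtain ⟨C, hC⟩ : ∃ C, C = D * D ^ z * (2 * k) ^ A * 2 ^ (2 ^ (k + z)) *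
      (2 ^ k * (k + z) ^ D) ^ (A + 1) := ⟨_, rfl⟩
  have hk0 : 0 < k := by omega
  refine ⟨k * (C + 1) + D, A, k, hk0, by rw [← hz]; omega, by omega, ?_⟩
  intro q hq
  rw [← hz]
  obtain ⟨n0, hn⟩ : ∃ n0, n0 = q / k := ⟨_, rfl⟩
  have hn0 : C + 1 ≤ n0 := by
    rw [hn, Nat.le_div_iff_mul_le hk0, mul_comm]
    omega
  have hqn : q ≤ 2 * k * n0 := by
    have h1 : q < k * (q / k + 1) := Nat.lt_mul_div_succ q hk0
    rw [← hn] at h1
    have h2 : k * (n0 + 1) ≤ 2 * k * n0 := by nlinarith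
    omega
  rw [← hn]
  have hn1 : 1 ≤ n0 := by omega
  refine ⟨by omega, 2 ^ k * (k + z) ^ D * n0 ^ (k - 1), ?_, ?_⟩
  · intro e h1 h2
    refine Nat.mul_le_mul (Nat.mul_le_mul_left _ ?_) ?_
    · exact Nat.pow_le_pow_right (by omega) h2
    · exact Nat.pow_le_pow_right hn1 (by omega)
  have h1 : (D * (q ^ (D - 1)) ^ D) * (D * q ^ (D - 1 + 1)) ^ z = D * D ^ z * q ^ A := by
    rw [mul_pow, ← pow_mul, ← pow_mul, hA, pow_add]
    ring
  have h2 : q ^ A ≤ (2 * k) ^ A * n0 ^ A := by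
    rw [← mul_pow]
    exact Nat.pow_le_pow_left hqn _
  have h3 : (2 ^ k * (k + z) ^ D * n0 ^ (k - 1)) ^ (A + 1) =
      (2 ^ k * (k + z) ^ D) ^ (A + 1) * (n0 ^ (k - 1)) ^ (A + 1) := by
    rw [mul_pow]
  have h4 : (n0 ^ k) ^ (A + 1) = n0 ^ (A + 1) * (n0 ^ (k - 1)) ^ (A + 1) := by
    rw [← pow_mul, ← pow_mul, ← pow_add]
    congr 1
    obtain ⟨k', rfl⟩ : ∃ k', k = k' + 1 := ⟨k - 1, by omega⟩
    rw [Nat.add_sub_cancel]
    ring
  have h6 : C * n0 ^ A < n0 ^ (A + 1) := by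
    rw [pow_succ, mul_comm]
    exact Nat.mul_lt_mul_of_pos_left (by omega) (by positivity)
  rw [h1, h3, h4]
  calc D * D ^ z * q ^ A * 2 ^ (2 ^ (k + z)) *
        ((2 ^ k * (k + z) ^ D) ^ (A + 1) * (n0 ^ (k - 1)) ^ (A + 1))
      ≤ D * D ^ z * ((2 * k) ^ A * n0 ^ A) * 2 ^ (2 ^ (k + z)) *
        ((2 ^ k * (k + z) ^ D) ^ (A + 1) * (n0 ^ (k - 1)) ^ (A + 1)) := by gcongr
    _ = C * n0 ^ A * (n0 ^ (k - 1)) ^ (A + 1) := by rw [hC]; ring
    _ < n0 ^ (A + 1) * (n0 ^ (k - 1)) ^ (A + 1) :=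
        Nat.mul_lt_mul_of_pos_right h6 (by positivity)

section big
variable {𝕜 : Type} [Field 𝕜] [CharZero 𝕜] {σ : Type} [Fintype σ] [DecidableEq σ]

lemma UB_cons_big {d : ℕ} {c : (σ → 𝕜) × ℕ} {l : List ((σ → 𝕜) × ℕ)} (hc : d < c.2)
    (h : UB d l) : UB d (c :: l) := by
  intro j hj
  have h1 := h j hj
  have h2 : (Module.finrank 𝕜 (K (c :: l) j) : ℤ) ≤ Module.finrank 𝕜 (K l j) := by
    exact_mod_cast Submodule.finrank_mono (K_cons_le c l j)
  simp only [List.map_cons, E]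
  rw [if_neg (by omega), sub_zero]
  exact h2.trans h1

lemma UB_append_big {d : ℕ} {l l' : List ((σ → 𝕜) × ℕ)} (hc : ∀ c ∈ l', d < c.2)
    (h : UB d l) : UB d (l' ++ l) := by
  induction l' with
  | nil => simpa using h
  | cons c l' ih =>
    rw [List.cons_append]
    exact UB_cons_big (hc c (List.mem_cons_self ..))
      (ih fun c' hc' => hc c' (List.mem_cons_of_mem _ hc'))

/-- large exponents do not matter -/
lemma UB_extend {d r : ℕ} {e : Fin r → ℕ} {S : Finset (Fin r)} (hS : ∀ i, i ∉ S → d < e i)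
    (h : ∃ P0 : Fin S.card × σ → 𝕜, UB d (ptList (fun i => e (S.orderEmbOfFin rfl i)) P0)) :
    ∃ P0 : Fin r × σ → 𝕜, UB d (ptList e P0) := by
  classical
  obtain ⟨P1, hP1⟩ := h
  let v : Fin r → σ → 𝕜 :=
    Function.extend (S.orderEmbOfFin rfl) (fun k x => P1 (k, x)) (fun _ _ => 0)
  have hv : ∀ k : Fin S.card, v (S.orderEmbOfFin rfl k) = fun x => P1 (k, x) := fun k =>
    (S.orderEmbOfFin rfl).injective.extend_apply _ _ k
  refine ⟨fun x => v x.1 x.2, ?_⟩
  have h1 : ptList (fun i => e (S.orderEmbOfFin rfl i)) P1 =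
      List.ofFn fun i : Fin S.card => (fun l => (v l, e l)) (S.orderEmbOfFin rfl i) := by
    unfold ptList
    congr 1
    funext k
    simp only [hv]
  have h2 : (ptList (fun i => e (S.orderEmbOfFin rfl i)) P1).Perm
      (S.toList.map fun l => (v l, e l)) := by
    rw [h1]
    exact perm_enum S fun l => (v l, e l)
  have h3 : UB d ((Sᶜ.toList.map fun l => (v l, e l)) ++ (S.toList.map fun l => (v l, e l))) := by
    refine UB_append_big ?_ (UB_perm h2 hP1)
    intro c hc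
    obtain ⟨l, hl, rfl⟩ := List.mem_map.1 hc
    exact hS l (by simpa using hl)
  refine UB_perm ?_ h3
  rw [← List.map_append]
  have h4 : ptList e (fun x : Fin r × σ => v x.1 x.2) =
      (List.finRange r).map fun l => (v l, e l) := by
    unfold ptList
    rw [List.ofFn_eq_map]
  rw [h4]
  refine List.Perm.map _ ?_
  rw [List.perm_ext_iff_of_nodup]
  · intro a
    simp only [List.mem_append, Finset.mem_toList, Finset.mem_compl, List.mem_finRange, iff_true]
    tauto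
  · rw [List.nodup_append]
    refine ⟨Finset.nodup_toList _, Finset.nodup_toList _, ?_⟩
    intro a ha b hb
    simp only [Finset.mem_toList, Finset.mem_compl] at ha hb
    rintro rfl
    exact ha hb
  · exact List.nodup_finRange r

end big

/-- one configuration with the expected dimensions -/
theorem exists_UB (𝕜 : Type) [Field 𝕜] [CharZero 𝕜] (D : ℕ) (hD : 0 < D) : ∃ p : ℕ, 2 ≤ p ∧
    ∀ (σ : Type) [Fintype σ] [DecidableEq σ] (a r : ℕ) (e : Fin r → ℕ),
      D * p ^ (a + 1) ≤ Fintype.card σ → (∀ i, 0 < e i) →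
      (∀ e', 1 ≤ e' → e' ≤ D → (Finset.univ.filter fun i => e i = e').card ≤ (p ^ a) ^ e') →
      ∃ P0 : Fin r × σ → 𝕜, UB D (ptList e P0) := by
  classical
  obtain ⟨q0, L, k, hk0, hk, hDq, hq⟩ := exists_num D hD
  obtain ⟨p, hp1, hp2⟩ := Nat.exists_infinite_primes (q0 + 2)
  refine ⟨p, by omega, ?_⟩
  have : Fact p.Prime := ⟨hp2⟩
  have hcF : Fintype.card (ZMod p) = p := ZMod.card p
  obtain ⟨h3, b, h4, h5⟩ := hq p (by omega)
  have key : ∀ (σ : Type) [Fintype σ] [DecidableEq σ] (a r : ℕ) (κ : Fin r → Fin D),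
      D * p ^ (a + 1) ≤ Fintype.card σ →
      (∀ κ' : Fin D, (Finset.univ.filter fun i => κ i = κ').card ≤ (p ^ a) ^ (κ'.val + 1)) →
      ∃ P0 : Fin r × σ → 𝕜, UB D (ptList (ex κ) P0) := by
    intro σ _ _ a r κ h1 h2
    have hcV : Fintype.card (Fin a → ZMod p) = p ^ a := by
      rw [Fintype.card_fun, Fintype.card_fin, hcF]
    obtain ⟨ι⟩ : Nonempty (Fin D × (ZMod p × (Fin a → ZMod p)) ↪ σ) := by
      refine Function.Embedding.nonempty_of_card_le ?_
      rw [Fintype.card_prod, Fintype.card_prod, hcV, hcF, ← pow_succ', Fintype.card_fin]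
      exact h1
    have hex : ∀ κ' : Fin D, ∃ f : Fin r → Fin D → (Fin a → ZMod p),
        (∀ i j, κ' < j → f i j = 0) ∧
        (∀ i i', κ i = κ' → κ i' = κ' → f i = f i' → i = i') := by
      intro κ'
      obtain ⟨g⟩ : Nonempty ({i : Fin r // κ i = κ'} ↪
          (Fin (κ'.val + 1) → (Fin a → ZMod p))) := by
        refine Function.Embedding.nonempty_of_card_le ?_
        rw [Fintype.card_fun, hcV, Fintype.card_fin, Fintype.card_subtype]
        exact h2 κ'
      refine ⟨fun i j => if h : κ i = κ' ∧ j.val < κ'.val + 1 then g ⟨i, h.1⟩ ⟨j.val, h.2⟩ else 0,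
        ?_, ?_⟩
      · intro i j hj
        refine dif_neg ?_
        rintro ⟨_, h⟩
        rw [Fin.lt_def] at hj
        omega
      · intro i i' hi hi' heq
        have h6 : g ⟨i, hi⟩ = g ⟨i', hi'⟩ := by
          funext j
          have h7 := congrFun heq ⟨j.val, j.2.trans_le κ'.2⟩
          simp only [hi, hi', true_and, dif_pos j.2] at h7
          exact h7
        have h7 := g.injective h6
        exact congrArg Subtype.val h7
    choose f hf1 hf2 using hex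
    refine UB_conf 𝕜 (F := ZMod p) (V := Fin a → ZMod p) (k := k) (n0 := p / k) (L := L)
      (b := b) (κ := κ) (φ := fun i => f (κ i) i)
      (by rw [hcF]; omega) h3 hk (by rw [hcF]; exact Nat.mul_div_le p k) h4
      (by rw [hcF]; exact h5) ι ?_ ?_
    · intro i j hj
      exact hf1 (κ i) i j hj
    · intro i j hij hφ
      have hφ' : f (κ i) i = f (κ i) j := by rw [hij] at hφ ⊢; exact hφ
      exact hf2 (κ i) i j rfl hij.symm hφ'
  intro σ _ _ a r e h1 he h2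
  refine UB_extend (S := Finset.univ.filter fun i => e i ≤ D) ?_ ?_
  · intro i hi
    simpa using hi
  · obtain ⟨S, hS⟩ : ∃ S, S = Finset.univ.filter fun i => e i ≤ D := ⟨_, rfl⟩
    rw [← hS]
    have hSm : ∀ i : Fin S.card, e (S.orderEmbOfFin rfl i) ≤ D := by
      intro i
      have h6 : S.orderEmbOfFin rfl i ∈ S := Finset.orderEmbOfFin_mem S rfl i
      have h7 : S.orderEmbOfFin rfl i ∈ Finset.univ.filter fun i => e i ≤ D := hS ▸ h6
      exact (Finset.mem_filter.1 h7).2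
    have hpos : ∀ i : Fin S.card, 0 < e (S.orderEmbOfFin rfl i) := fun i => he _
    obtain ⟨P0, hP0⟩ := key σ a S.card
      (fun i => ⟨e (S.orderEmbOfFin rfl i) - 1, by have := hSm i; have := hpos i; omega⟩) h1 (by
      intro κ'
      refine le_trans ?_ (h2 (κ'.val + 1) (Nat.succ_pos _) κ'.2)
      refine Finset.card_le_card_of_injOn (fun i => S.orderEmbOfFin rfl i) ?_ ?_
      · intro i hi
        have h6 : (⟨e (S.orderEmbOfFin rfl i) - 1, by have := hSm i; have := hpos i; omega⟩ :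
            Fin D) = κ' := (Finset.mem_filter.1 hi).2
        have h7 := congrArg Fin.val h6
        simp only at h7
        have := hpos i
        rw [Finset.mem_coe, Finset.mem_filter]
        refine ⟨Finset.mem_univ _, ?_⟩
        change e (S.orderEmbOfFin rfl i) = κ'.val + 1
        omega
      · intro i _ j _ hij
        exact (S.orderEmbOfFin rfl).injective hij)
    refine ⟨P0, ?_⟩
    have h6 : (ex fun i : Fin S.card => (⟨e (S.orderEmbOfFin rfl i) - 1, by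
        have := hSm i; have := hpos i; omega⟩ : Fin D)) =
        fun i => e (S.orderEmbOfFin rfl i) := by
      funext i
      unfold ex
      have := hpos i
      simp only
      omega
    rw [h6] at hP0
    exact hP0

/-- the common source of all the results -/
theorem main (𝕜 : Type) [Field 𝕜] [CharZero 𝕜] (D : ℕ) :
    ∃ c : ℝ, 0 < c ∧ ∀ (σ : Type) [Fintype σ] [DecidableEq σ] (x r : ℕ) (e : Fin r → ℕ),
      x ≤ Fintype.card σ → (∀ i, 0 < e i) →
      (∀ e', 1 ≤ e' → e' ≤ D →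
        ((Finset.univ.filter fun i => e i = e').card : ℝ) ≤ c * (x : ℝ) ^ e') →
      ∃ P0 : Fin r × σ → 𝕜, UB D (ptList e P0) := by
  classical
  have hbig : ∀ (σ : Type) [Fintype σ] [DecidableEq σ] (r : ℕ) (e : Fin r → ℕ),
      (∀ i, D < e i) → ∃ P0 : Fin r × σ → 𝕜, UB D (ptList e P0) := by
    intro σ _ _ r e h
    refine ⟨fun _ => 0, ?_⟩
    have h1 := UB_append_big (d := D) (l := ([] : List ((σ → 𝕜) × ℕ)))
      (l' := ptList e fun _ : Fin r × σ => (0 : 𝕜)) (by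
        intro c hc
        obtain ⟨i, rfl⟩ := exists_of_mem_ptList hc
        exact h i) (UB_of_EQ (EQ_nil D))
    rwa [List.append_nil] at h1
  rcases Nat.eq_zero_or_pos D with hD | hD
  · subst hD
    exact ⟨1, one_pos, fun σ _ _ x r e _ he _ => hbig σ r e he⟩
  obtain ⟨p, hp, H⟩ := exists_UB 𝕜 D hD
  have hp0 : 0 < p := by omega
  have hDp : (0 : ℝ) < ((D : ℝ) * (p : ℝ) ^ 2) ^ D := by
    have h1 : (0 : ℝ) < D := by exact_mod_cast hD
    have h2 : (0 : ℝ) < p := by exact_mod_cast hp0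
    positivity
  refine ⟨1 / ((D : ℝ) * (p : ℝ) ^ 2) ^ D, by positivity, ?_⟩
  intro σ _ _ x r e hx he hcount
  have hcount' : ∀ e', 1 ≤ e' → e' ≤ D →
      (Finset.univ.filter fun i => e i = e').card * (D * p ^ 2) ^ D ≤ x ^ e' := by
    intro e' h1 h2
    have h3 := hcount e' h1 h2
    rw [one_div, inv_mul_eq_div, le_div_iff₀ hDp] at h3
    exact_mod_cast h3
  by_cases hxD : x < D * p
  · refine hbig σ r e ?_
    intro i
    by_contra hcon
    push Not at hcon
    have h1 := hcount' (e i) (he i) hcon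
    have h2 : 1 ≤ (Finset.univ.filter fun j => e j = e i).card :=
      Finset.card_pos.2 ⟨i, by simp⟩
    have h3 : x ^ e i < (D * p ^ 2) ^ D := by
      calc x ^ e i ≤ (D * p) ^ e i := Nat.pow_le_pow_left hxD.le _
        _ ≤ (D * p) ^ D := Nat.pow_le_pow_right (Nat.mul_pos hD hp0) hcon
        _ < (D * p ^ 2) ^ D := by
            refine Nat.pow_lt_pow_left ?_ hD.ne'
            refine Nat.mul_lt_mul_of_pos_left ?_ hD
            nlinarith
    have h4 : 1 * (D * p ^ 2) ^ D ≤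
        (Finset.univ.filter fun j => e j = e i).card * (D * p ^ 2) ^ D :=
      Nat.mul_le_mul_right _ h2
    omega
  · push Not at hxD
    obtain ⟨y, hy⟩ : ∃ y, y = x / D := ⟨_, rfl⟩
    have hyp : p ≤ y := by
      rw [hy, Nat.le_div_iff_mul_le hD, mul_comm]
      exact hxD
    have hlog : 0 < Nat.log p y := Nat.log_pos (by omega) hyp
    obtain ⟨a, ha⟩ : ∃ a, Nat.log p y = a + 1 := ⟨Nat.log p y - 1, by omega⟩
    have h3 : p ^ (a + 1) ≤ y := by
      rw [← ha]; exact Nat.pow_log_le_self p (by omega)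
    have h4 : y + 1 ≤ p ^ (a + 2) := by
      have := Nat.lt_pow_succ_log_self (b := p) (by omega) y
      rw [ha] at this
      exact this
    have h5 : x ≤ D * p ^ (a + 2) := by
      have h6 : x < D * (x / D + 1) := Nat.lt_mul_div_succ x hD
      rw [← hy] at h6
      exact h6.le.trans (Nat.mul_le_mul_left _ h4)
    refine H σ a r e ?_ he ?_
    · refine le_trans ?_ hx
      calc D * p ^ (a + 1) ≤ D * y := Nat.mul_le_mul_left _ h3
        _ ≤ x := by rw [hy]; exact Nat.mul_div_le x D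
    · intro e' h6 h7
      have h8 := hcount' e' h6 h7
      have h9 : x ^ e' ≤ (p ^ a) ^ e' * (D * p ^ 2) ^ D := by
        calc x ^ e' ≤ (D * p ^ (a + 2)) ^ e' := Nat.pow_le_pow_left h5 _
          _ = (p ^ a) ^ e' * (D * p ^ 2) ^ e' := by
              rw [← mul_pow, pow_add]
              congr 1
              ring
          _ ≤ (p ^ a) ^ e' * (D * p ^ 2) ^ D := by
              refine Nat.mul_le_mul_left _ (Nat.pow_le_pow_right ?_ h7)
              exact Nat.mul_pos hD (by positivity)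
      exact Nat.le_of_mul_le_mul_right (h8.trans h9)
        (Nat.pow_pos (Nat.mul_pos hD (by positivity)))

/-- the configuration together with the numerical condition -/
theorem main2 (𝕜 : Type) [Field 𝕜] [CharZero 𝕜] (D : ℕ) :
    ∃ c : ℝ, 0 < c ∧ ∀ (σ : Type) [Fintype σ] [DecidableEq σ] (x r : ℕ) (e : Fin r → ℕ),
      1 ≤ Fintype.card σ → x ≤ Fintype.card σ → (∀ i, 0 < e i) →
      (∀ e', 1 ≤ e' → e' ≤ D →
        ((Finset.univ.filter fun i => e i = e').card : ℝ) ≤ c * (x : ℝ) ^ e') →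
      (∀ j ≤ D, ∑ i : Fin r, (if e i ≤ j then gj σ (j - e i) else 0) < gj σ j) ∧
      ∃ P0 : Fin r × σ → 𝕜, UB D (ptList e P0) := by
  obtain ⟨c, hc, H⟩ := main 𝕜 D
  have hden : (0 : ℝ) < ((D : ℝ) + 1) ^ (D + 1) + 1 := by positivity
  refine ⟨min c (1 / (((D : ℝ) + 1) ^ (D + 1) + 1)), lt_min hc (by positivity), ?_⟩
  intro σ _ _ x r e hσ1 hx he hcount
  have hσ : Nonempty σ := Fintype.card_pos_iff.1 (by omega)
  constructor
  · intro j hj
    refine sum_lt he (c := 1 / (((D : ℝ) + 1) ^ (D + 1) + 1)) (by positivity) ?_ ?_ hj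
    · rw [one_div, inv_mul_lt_iff₀ hden]
      linarith
    · intro e' h1 h2
      refine (hcount e' h1 h2).trans ?_
      refine mul_le_mul (min_le_right _ _) ?_ (by positivity) (by positivity)
      exact pow_le_pow_left₀ (by positivity) (by exact_mod_cast hx) _
  · refine H σ x r e hx he ?_
    intro e' h1 h2
    refine (hcount e' h1 h2).trans ?_
    exact mul_le_mul_of_nonneg_right (min_le_left _ _) (by positivity)

/-- dimension of the system and comparison with the naive count, for general points -/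
theorem generic_compare' (𝕜 : Type) [Field 𝕜] [CharZero 𝕜] {σ : Type} [Fintype σ]
    [DecidableEq σ] {d r : ℕ} {e : Fin r → ℕ} (he : ∀ i, 0 < e i)
    (hs : ∀ j ≤ d, ∑ i : Fin r, (if e i ≤ j then gj σ (j - e i) else 0) < gj σ j)
    {P0 : Fin r × σ → 𝕜} (hP0 : UB d (ptList e P0)) :
    ∃ Φ : MvPolynomial (Fin r × σ) 𝕜, Φ ≠ 0 ∧ ∀ P, eval P Φ ≠ 0 →
      (∀ j ≤ d, (Module.finrank 𝕜 (K (ptList e P) j) : ℤ) = E (gj σ) (List.ofFn e) j) ∧
      (∀ j ≤ d, 0 < E (gj σ) (List.ofFn e) j) ∧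
      ((∀ i j : Fin r, i ≠ j → d < e i + e j) → (Module.finrank 𝕜 (K (ptList e P) d) : ℤ) =
        gj σ d - ∑ i : Fin r, (if e i ≤ d then gj σ (d - e i) else 0)) ∧
      ((∃ i j : Fin r, i ≠ j ∧ e i + e j ≤ d) →
        gj σ d - ∑ i : Fin r, (if e i ≤ d then gj σ (d - e i) else 0) <
          (Module.finrank 𝕜 (K (ptList e P) d) : ℤ)) := by
  obtain ⟨Φ, h0, hΦ⟩ := generic_K_all e d P0
  refine ⟨Φ, h0, fun P hP => ?_⟩
  have h1 : UB d (ptList e P) := by
    intro j hj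
    have h2 := hP0 j hj
    rw [map_snd_ptList] at h2 ⊢
    have h3 := hΦ P hP j hj
    exact (Nat.cast_le.2 h3).trans h2
  have hs' : ∀ j ≤ d, sm σ ((ptList e P).map Prod.snd) j < gj σ j := by
    intro j hj
    rw [map_snd_ptList, sm_ofFn]
    exact hs j hj
  have hEQ := EQ_of_UB (ptList_pos he P) h1
  have h4 := hEQ d le_rfl
  obtain ⟨_, _, c3, c4, _, c6⟩ := E_compare d (ptList e P) (ptList_pos he P) h1 hs'
  rw [map_snd_ptList] at c3 c4 h4 c6
  rw [sm_ofFn] at c3 c4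
  refine ⟨?_, c6, ?_, ?_⟩
  · intro j hj
    have := hEQ j hj
    rwa [map_snd_ptList] at this
  · intro h
    rw [h4]
    refine c3 ?_
    rw [List.pairwise_ofFn]
    intro i j hij
    exact h i j hij.ne
  · rintro ⟨i, j, hij, hle⟩
    rw [h4]
    refine c4 ?_
    rw [List.pairwise_ofFn]
    intro hcon
    rcases lt_or_gt_of_ne hij with h | h
    · have := hcon h; omega
    · have := hcon h; omega

end
end TH130PE
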