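import Mathlib
import Pool.Agent.TH130.PE.Main
import Pool.Agent.H350R3.MG.Ser
import Pool.Agent.TH130.FP.FinalA

set_option linter.unusedSectionVars false

namespace TH130PE
open MvPolynomial H350MG

noncomputable section

variable {𝕜 : Type} [Field 𝕜] [CharZero 𝕜] {σ : Type} [Fintype σ] [DecidableEq σ]

/-- the dimension of the quotient is at most the dimension of the inverse system -/
lemma qd_pow_le {r : ℕ} (e : Fin r → ℕ) (P : Fin r × σ → 𝕜) (j : ℕ) :
    qd (powList e P) j ≤ (Module.finrank 𝕜 (K (ptList e P) j) : ℤ) := by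
  have h1 := apolar e P j
  have h2 : (gj σ j : ℤ) = (Module.finrank 𝕜 (Rj 𝕜 σ j) : ℤ) := (finrank_Rj' j).symm
  unfold qd
  rw [h2]
  have h3 : (Module.finrank 𝕜 (Rj 𝕜 σ j) : ℤ) ≤ (Module.finrank 𝕜 (K (ptList e P) j) : ℤ) +
      (Module.finrank 𝕜 (J (powList e P) j) : ℤ) := by exact_mod_cast h1
  linarith

/-- powers of generic linear forms -/
theorem pow_exact {D r : ℕ} {e : Fin r → ℕ} (he : ∀ i, 0 < e i) {P0 : Fin r × σ → 𝕜}
    (hP0 : UB D (ptList e P0)) :
    ∃ Φ : MvPolynomial (Fin r × σ) 𝕜, Φ ≠ 0 ∧ ∀ P, eval P Φ ≠ 0 → ∀ j ≤ D,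
      qd (powList e P) j = E (gj σ) (List.ofFn e) j := by
  obtain ⟨Φ, h0, hΦ⟩ := generic_K_all e D P0
  refine ⟨Φ, h0, fun P hP => ?_⟩
  have hsnd : (powList e P).map Prod.snd = List.ofFn e := by
    unfold powList
    rw [List.map_ofFn]
    rfl
  have key := qd_EQ D (powList e P) (by
    intro a ha
    refine ⟨powList_good e P a ha, ?_⟩
    unfold powList at ha
    rw [List.mem_ofFn'] at ha
    obtain ⟨k, rfl⟩ := ha
    exact he k) (by
    intro j hj
    rw [hsnd]
    have h2 := hP0 j hj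
    rw [map_snd_ptList] at h2
    have h3 : (Module.finrank 𝕜 (K (ptList e P) j) : ℤ) ≤
      Module.finrank 𝕜 (K (ptList e P0) j) := by exact_mod_cast hΦ P hP j hj
    exact (qd_pow_le e P j).trans (h3.trans h2))
  intro j hj
  have := key j hj
  rw [hsnd] at this
  exact this

/-- powers of generic forms -/
theorem formpow_exact {D r : ℕ} (δ q : Fin r → ℕ) (hδ : ∀ i, 0 < δ i * q i)
    {P0 : Fin r × σ → 𝕜} (hP0 : UB D (ptList (fun i => δ i * q i) P0)) :
    ∃ Φ : MvPolynomial (Cf σ δ) 𝕜, Φ ≠ 0 ∧ ∀ c, eval c Φ ≠ 0 → ∀ j ≤ D,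
      qd (fList (fun i => δ i * q i) (fun i => fc c i ^ q i)) j =
        E (gj σ) (List.ofFn fun i => δ i * q i) j := by
  choose Φ h0 hΦ using fun j => Pool.Agent.TH130.FP.generic_Jpow (K := 𝕜) δ q j (c0 δ P0)
  refine ⟨∏ j ∈ Finset.range (D + 1), Φ j, Finset.prod_ne_zero_iff.2 fun j _ => h0 j, ?_⟩
  intro c hc
  have hlist : fList (fun i => δ i * q i) (fun i => fc (c0 δ P0) i ^ q i) =
      powList (fun i => δ i * q i) P0 := by
    unfold fList powList
    congr 1
    funext i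
    have h : (fc (c0 δ P0) i : MvPolynomial σ 𝕜) ^ q i = lin (fun k => P0 (i, k)) ^ (δ i * q i) := by
      rw [fc_c0, ← pow_mul]
    exact Prod.ext h rfl
  have hsnd : (fList (fun i => δ i * q i) (fun i => fc c i ^ q i)).map Prod.snd =
      List.ofFn fun i => δ i * q i := by
    unfold fList
    rw [List.map_ofFn]
    rfl
  have key := qd_EQ D (fList (fun i => δ i * q i) (fun i => fc c i ^ q i)) (by
    intro a ha
    obtain ⟨i, rfl⟩ := mem_fList.1 ha
    exact ⟨Pool.Agent.TH130.FP.fcpow_hom c i, hδ i⟩) (by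
    intro j hj
    rw [hsnd]
    have h1 : eval c (Φ j) ≠ 0 := by
      intro h
      apply hc
      rw [map_prod]
      exact Finset.prod_eq_zero (Finset.mem_range.2 (by omega)) h
    have h2 := hΦ j c h1
    rw [hlist] at h2
    have h3 := hP0 j hj
    rw [map_snd_ptList] at h3
    have h4 := qd_pow_le (fun i => δ i * q i) P0 j
    have h5 : (Module.finrank 𝕜 (J (powList (fun i => δ i * q i) P0) j) : ℤ) ≤
      (Module.finrank 𝕜 (J (fList (fun i => δ i * q i) (fun i => fc c i ^ q i)) j) : ℤ) := by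
      exact_mod_cast h2
    unfold qd at h4 ⊢
    linarith)
  intro j hj
  have := key j hj
  rw [hsnd] at this
  exact this

/-- equal exponents: the numerical conditions -/
theorem main_eq (𝕜 : Type) [Field 𝕜] [CharZero 𝕜] (D : ℕ) :
    ∃ c : ℝ, 0 < c ∧ ∀ n r e : ℕ, 1 ≤ n → 1 ≤ e → (r : ℝ) ≤ c * (n : ℝ) ^ e →
      (∀ j ≤ D, ∑ _i : Fin r, (if e ≤ j then gj (Fin n) (j - e) else 0) < gj (Fin n) j) ∧
      ∃ P0 : Fin r × Fin n → 𝕜, UB D (ptList (fun _ => e) P0) := by
  obtain ⟨c, hc, H⟩ := main2 𝕜 D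
  refine ⟨c, hc, fun n r e hn he hr => ?_⟩
  refine H (Fin n) n r (fun _ => e) (by rw [Fintype.card_fin]; exact hn)
    (by rw [Fintype.card_fin]) (fun _ => he) ?_
  intro e' _ _
  by_cases h : e = e'
  · subst h
    have h1 : (Finset.univ.filter fun _ : Fin r => e = e).card = r := by simp
    rw [h1]
    exact hr
  · have h1 : (Finset.univ.filter fun _ : Fin r => e = e').card = 0 := by simp [h]
    rw [h1, Nat.cast_zero]
    positivity

lemma E_pos_of {D r : ℕ} {e : Fin r → ℕ} (he : ∀ i, 0 < e i)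
    (hs : ∀ j ≤ D, ∑ i : Fin r, (if e i ≤ j then gj σ (j - e i) else 0) < gj σ j)
    {P0 : Fin r × σ → 𝕜} (hP0 : UB D (ptList e P0)) :
    ∀ j ≤ D, 0 < E (gj σ) (List.ofFn e) j := by
  have h2 := E_compare D (ptList e P0) (ptList_pos he _) hP0 (by
    intro j hj
    rw [map_snd_ptList, sm_ofFn]
    exact hs j hj)
  intro j hj
  have := h2.2.2.2.2.2 j hj
  rwa [map_snd_ptList] at this

end
end TH130PE
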